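import Pool.Agent.PAH.Final

set_option autoImplicit false

namespace Pool.Agent.Results.MP_27c7f0_lc.PrescribedAreaHard

open Pool.Agent.PAH

/-- The prescribed area problem for plane graphs with no fixed vertices is `∃ℝ`-hard: every
decision problem which reduces in polynomial time to the existential theory of the reals reduces
in polynomial time to it. -/
theorem result : ExistsRHard prescribedArea := main

end Pool.Agent.Results.MP_27c7f0_lc.PrescribedAreaHard
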